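import Pool.Agent.PW.StmtsA

/-!
# PW, row EUL: Euler's formula for powers of an ideal
-/

set_option autoImplicit false

namespace Pool.Agent.PW.H20

open Pool.Agent.PW

/-- EUL -/
theorem eul : EulStmt := by
  intro R _ ρ Y Δ δ hδ
  obtain ⟨I, hI⟩ : ∃ I : Ideal R, I = Ideal.span (Set.range Y) := ⟨_, rfl⟩
  rw [← hI]
  obtain ⟨N, hN⟩ : ∃ N : Derivation ℤ R R, ∀ f, N f = ∑ a, Y a * δ a f := by
    refine ⟨∑ a, Y a • δ a, fun f => ?_⟩
    have key : ∀ s : Finset (Fin ρ), (∑ a ∈ s, Y a • δ a) f = ∑ a ∈ s, Y a * δ a f := by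
      intro s
      induction s using Finset.induction_on with
      | empty => simp
      | insert a s ha ih =>
        rw [Finset.sum_insert ha, Finset.sum_insert ha, Derivation.add_apply, ih]
        rfl
    exact key _
  have hY : ∀ a, Y a ∈ I := fun a => hI ▸ Ideal.subset_span ⟨a, rfl⟩
  have h0 : ∀ f, N f ∈ I := by
    intro f
    rw [hN]
    exact Ideal.sum_mem _ fun a _ => Ideal.mul_mem_right _ _ (hY a)
  have h1 : ∀ f ∈ I, N f - Δ * f ∈ I ^ 2 := by
    intro f hf
    rw [hI] at hf
    refine Submodule.span_induction (p := fun x _ => N x - Δ * x ∈ I ^ 2) ?_ ?_ ?_ ?_ hf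
    · rintro _ ⟨a', rfl⟩
      have : N (Y a') = Δ * Y a' := by
        rw [hN, Finset.sum_eq_single a']
        · rw [hδ, if_pos rfl, mul_comm]
        · intro a _ ha
          rw [hδ, if_neg ha, mul_zero]
        · intro h
          exact absurd (Finset.mem_univ _) h
      rw [this, sub_self]
      exact Ideal.zero_mem _
    · rw [map_zero, mul_zero, sub_zero]
      exact Ideal.zero_mem _
    · intro x y _ _ hx hy
      have : N (x + y) - Δ * (x + y) = (N x - Δ * x) + (N y - Δ * y) := by
        rw [map_add]
        ring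
      rw [this]
      exact Ideal.add_mem _ hx hy
    · intro r x hxI hx
      have hxI' : x ∈ I := by
        rw [hI]
        exact hxI
      have : N (r • x) - Δ * (r • x) = r * (N x - Δ * x) + x * N r := by
        rw [smul_eq_mul, Derivation.leibniz, smul_eq_mul, smul_eq_mul]
        ring
      rw [this]
      refine Ideal.add_mem _ (Ideal.mul_mem_left _ _ hx) ?_
      rw [pow_two]
      exact Ideal.mul_mem_mul hxI' (h0 r)
  have key : ∀ (j : ℕ) (f : R), f ∈ I ^ j → N f - (j : R) * Δ * f ∈ I ^ (j + 1) := by
    intro j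
    induction j with
    | zero =>
      intro f _
      rw [Nat.cast_zero, zero_mul, zero_mul, sub_zero, zero_add, pow_one]
      exact h0 f
    | succ j ih =>
      intro f hf
      rw [pow_succ] at hf
      refine Submodule.mul_induction_on hf ?_ ?_
      · intro g hg h hh
        have e : N (g * h) - ((j + 1 : ℕ) : R) * Δ * (g * h) =
            (N g - (j : R) * Δ * g) * h + g * (N h - Δ * h) := by
          rw [Derivation.leibniz, smul_eq_mul, smul_eq_mul]
          push_cast
          ring
        rw [e]
        refine Ideal.add_mem _ ?_ ?_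
        · rw [pow_succ I (j + 1)]
          exact Ideal.mul_mem_mul (ih g hg) hh
        · have e2 : I ^ (j + 1 + 1) = I ^ j * I ^ 2 := by
            rw [← pow_add]
          rw [e2]
          exact Ideal.mul_mem_mul hg (h1 h hh)
      · intro x y hx hy
        have e : N (x + y) - ((j + 1 : ℕ) : R) * Δ * (x + y) =
            (N x - ((j + 1 : ℕ) : R) * Δ * x) + (N y - ((j + 1 : ℕ) : R) * Δ * y) := by
          rw [map_add]
          ring
        rw [e]
        exact Ideal.add_mem _ hx hy
  intro j f hf
  have := key j f hf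
  rwa [hN] at this

end Pool.Agent.PW.H20
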